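import Pool.Agent.N972.TP.Law

/-!
# Non-vanishing of toric periods for the newforms of level 15 and 17

Let `E` be `y² = x (x + 9) (x - 16)` (conductor 15) or `y² = x (x + 1) (x - 16)` (conductor 17), and let `E_d` be the
twist of `E` by the squarefree integer `d`. We prove that in every class of squarefree integers `d` which is given by
the sign and by the residue to a modulus divisible by the conductor, and in which the root number of `E_d` is `+1`,
a positive proportion of the twists have analytic rank zero. More precisely, if `E_d(ℚ)` is finite and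
`Ш(E_d/ℚ)[2] = 0`, then the analytic rank and the rank of `E_d` are zero, and in each of these classes the `d` with
this property have the exact natural density `∏ (1 - 2^{-i}) = 0.2888...` (conductor 15),
`∏ (1 - 2^{-(2i-1)}) = 0.4194...` (conductor 17), by `|d|` and by the discriminant of `ℚ(√d)`. By Waldspurger's
theorem this is the question on toric periods for the two newforms, for all quaternion algebras, all orders and all
local conditions.

Helper 972, on top of the theorems on the twists of the curves of conductors 15 and 17 and on their densities (helpers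
969, 970, 971, 972, 973, 974, 975, 963, 99, 218, 402, 575, 609, 809, 816, 844, 855, 871, 875, 877, 886, 890, 916, 919,
958 and others).
-/

set_option autoImplicit false

open Finset Filter

namespace Pool.Agent.Results.MP_7c5fb9_nt.Levels15And17

/-- the conductors -/
def level : Fin 2 → ℕ := ![15, 17]

/-- the coefficients `a` of the curves number `0, 1`: `y² = x (x + 9) (x - 16)`, `y² = x (x + 1) (x - 16)` of
conductors `15, 17`, written as `y² = x³ + a x + b` -/
def coefA : Fin 2 → ℤ := ![-12987, -91]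

/-- the coefficients `b` of the curves -/
def coefB : Fin 2 → ℤ := ![-263466, -330]

/-- the coefficient `a` of the twist of the curve number `j` by `d` -/
def A (j : Fin 2) (d : ℤ) : ℤ := coefA j * d ^ 2

/-- the coefficient `b` of the twist of the curve number `j` by `d` -/
def B (j : Fin 2) (d : ℤ) : ℤ := coefB j * d ^ 3

/-- the curve `y² = x³ + a x + b` over `ℚ` -/
def E (a b : ℤ) : WeierstrassCurve ℚ := { a₁ := 0, a₂ := 0, a₃ := 0, a₄ := (a : ℚ), a₆ := (b : ℚ) }

/-- `E(ℚ)` is finite and `Ш(E/ℚ)` has no element of order two, for `E : y² = x³ + a x + b` -/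
def RankZeroShaTwo (a b : ℤ) : Prop :=
  Finite (E a b).toAffine.Point ∧ ∀ x : Pool.Agent.TH841.SH.D.Sha (E a b), 2 • x = 0 → x = 0

/-- the condition for the twist by `d` of the curve number `j` -/
def Min (j : Fin 2) (d : ℤ) : Prop := RankZeroShaTwo (A j d) (B j d)

/-- the root number of the twist by the squarefree `d` of the curve number `j` -/
def rootNumber : Fin 2 → ℤ → ℤ :=
  ![fun d => (if d < 0 then -1 else 1) * (if d % 3 = 2 then -1 else 1) *
      (if d % 5 = 1 ∨ d % 5 = 4 then 1 else -1),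
    fun d => (if d < 0 then -1 else 1) * (if jacobiSym d 17 = 1 then 1 else -1)]

/-- the integers `d` of the same sign as `d₀` and in the same residue class modulo `m` -/
def SameClass (m : ℕ) (d₀ d : ℤ) : Prop :=
  (0 < d ↔ 0 < d₀) ∧ (d < 0 ↔ d₀ < 0) ∧ d % (m : ℤ) = d₀ % (m : ℤ)

/-- the conclusion of the frozen statement `S17291` for `y² = x³ + a x + b`, together with the fact that
the order of vanishing and the rank are both `0` -/
def BSDRankZero (a b : ℤ) : Prop :=
  4 * a ^ 3 + 27 * b ^ 2 ≠ 0 ∧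
    ∃ F : ℂ → ℂ, Differentiable ℂ F ∧
      (∀ s : ℂ, (3 : ℝ) / 2 < s.re →
        HasProd
          (fun p : ℕ => open Classical in
            if p.Prime ∧ ¬ ((p : ℤ) ∣ 2 * (-4 * a ^ 3 - 27 * b ^ 2)) then
              (1 - ((p : ℂ) - (Nat.card {q : ZMod p × ZMod p //
                  q.2 ^ 2 = q.1 ^ 3 + (a : ZMod p) * q.1 + (b : ZMod p)} : ℂ))
                  * (p : ℂ) ^ (-s) + (p : ℂ) ^ (1 - 2 * s))⁻¹
            else 1)
          (F s)) ∧
      analyticOrderAt F 1 =
        ((Module.finrank ℤ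
          (WeierstrassCurve.Affine.Point
            (WeierstrassCurve.toAffine
              ({ a₁ := 0, a₂ := 0, a₃ := 0, a₄ := (a : ℚ), a₆ := (b : ℚ) } :
                WeierstrassCurve ℚ))) : ℕ) : ℕ∞) ∧
      Module.finrank ℤ
        (WeierstrassCurve.Affine.Point
          (WeierstrassCurve.toAffine
            ({ a₁ := 0, a₂ := 0, a₃ := 0, a₄ := (a : ℚ), a₆ := (b : ℚ) } :
              WeierstrassCurve ℚ))) = 0

open Classical in
/-- the number of the squarefree integers `d`, `|d| ≤ X`, with the property `P` -/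
noncomputable def count (P : ℤ → Prop) (X : ℕ) : ℕ :=
  ((Icc (-(X : ℤ)) X).filter fun d => Squarefree d ∧ P d).card

/-- `D` is a fundamental discriminant (`1` included) -/
def Fund (D : ℤ) : Prop := (Squarefree D ∧ D % 4 = 1) ∨
  ∃ m : ℤ, D = 4 * m ∧ Squarefree m ∧ (m % 4 = 2 ∨ m % 4 = 3)

/-- the squarefree integer `d` with `ℚ(√d) = ℚ(√D)` -/
def core (D : ℤ) : ℤ := if D % 2 = 1 then D else D / 4

open Classical in
/-- the number of the fundamental discriminants `D`, `|D| ≤ X`, for which `core D` has the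
property `P` -/
noncomputable def countDisc (P : ℤ → Prop) (X : ℕ) : ℕ :=
  ((Icc (-(X : ℤ)) X).filter fun D => Fund D ∧ P (core D)).card

open Pool.Agent.N919.BS (NS NF Rt17)
open Pool.Agent.N963.JT (R15 R17)
open Pool.Agent.N916.PQ (f15)
open Pool.Agent.N972.TP (Cl)

/-- the conditions in the notation of the helper files -/
def RR (j : Fin 2) (d : ℤ) : Prop := if j = 0 then R15 d else R17 d

/-- the constants -/
noncomputable def kap (j : Fin 2) : ℝ :=
  if j = 0 then Pool.Agent.N916.GB.eta else Pool.Agent.Y703.CQ.c2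

theorem min_iff (j : Fin 2) (d : ℤ) : Min j d ↔ RR j d := by
  fin_cases j
  · show RankZeroShaTwo (-12987 * d ^ 2) (-263466 * d ^ 3) ↔ R15 d
    unfold RankZeroShaTwo Pool.Agent.N963.JT.R15 Pool.Agent.N875.X15.Fin2
    have e : E (-12987 * d ^ 2) (-263466 * d ^ 3) = Pool.Agent.N875.X15.WS d := rfl
    rw [← e]
    refine and_congr Iff.rfl (forall_congr' fun x => ?_)
    rw [two_nsmul]
  · show RankZeroShaTwo (-91 * d ^ 2) (-330 * d ^ 3) ↔ R17 d
    unfold RankZeroShaTwo Pool.Agent.N963.JT.R17 Pool.Agent.N875.X15.Fin2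
    have e : E (-91 * d ^ 2) (-330 * d ^ 3) = Pool.Agent.N875.P17.WS d := rfl
    rw [← e]
    refine and_congr Iff.rfl (forall_congr' fun x => ?_)
    rw [two_nsmul]

theorem root0 (d : ℤ) : rootNumber 0 d = 1 ↔ f15 d = true := decide_eq_true_iff.symm

theorem root1 (d : ℤ) : rootNumber 1 d = 1 ↔ Rt17 d := by
  show (if d < 0 then (-1 : ℤ) else 1) * (if jacobiSym d 17 = 1 then 1 else -1) = 1 ↔ Rt17 d
  unfold Pool.Agent.N919.BS.Rt17
  have h0 : d = 0 → jacobiSym d 17 ≠ 1 := by
    rintro rfl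
    norm_num
  by_cases h1 : d < 0 <;> by_cases h2 : jacobiSym d 17 = 1
  · have : ¬ 0 < d := by omega
    simp [h1, h2, this]
  · simp [h1, h2]
  · have h3 : d ≠ 0 := fun h => h0 h h2
    have : 0 < d := by omega
    simp [h1, h2, this]
  · simp [h1, h2]

theorem cl_iff (m : ℕ) (d₀ d : ℤ) : SameClass m d₀ d ↔ Cl m d₀ d := Iff.rfl

theorem count_eq (P Q : ℤ → Prop) (h : ∀ d, P d ↔ Q d) : count P = NS Q := by
  classical
  funext X
  unfold count NS
  refine congrArg Finset.card (Finset.ext fun n => ?_)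
  refine (Finset.mem_filter).trans (Iff.trans ?_ (Finset.mem_filter).symm)
  exact and_congr_right fun _ => and_congr_right fun hs => h n

theorem countDisc_eq (P Q : ℤ → Prop) (h : ∀ d, P d ↔ Q d) : countDisc P = NF Q := by
  classical
  funext X
  unfold countDisc NF
  refine congrArg Finset.card (Finset.ext fun n => ?_)
  refine (Finset.mem_filter).trans (Iff.trans ?_ (Finset.mem_filter).symm)
  exact and_congr_right fun _ => and_congr_right fun hs => h _

theorem bsd_of_rank {a b : ℤ} (h0 : 4 * a ^ 3 + 27 * b ^ 2 ≠ 0)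
    (h : Pool.Agent.Y687.RankBSD a b) : BSDRankZero a b := by
  obtain ⟨F, h1, h2, h3, h4⟩ := h
  exact ⟨h0, F, h1, h2, by rw [h3, h4]; rfl, h4⟩

theorem hasProd_eta : HasProd (fun i : ℕ => 1 - (1 / 2 : ℝ) ^ (i + 1)) Pool.Agent.N916.GB.eta := by
  have h : Multipliable fun i : ℕ => 1 + -((1 / 2 : ℝ) ^ (i + 1)) := by
    apply multipliable_one_add_of_summable
    have h1 : Summable fun i : ℕ => (1 / 2 : ℝ) ^ i * (1 / 2) :=
      (summable_geometric_of_lt_one (by norm_num) (by norm_num)).mul_right _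
    refine h1.congr fun i => ?_
    rw [norm_neg, Real.norm_of_nonneg (by positivity), pow_succ]
  have h3 := h.hasProd
  have e : (fun i : ℕ => 1 + -((1 / 2 : ℝ) ^ (i + 1))) = fun i : ℕ => 1 - (1 / 2 : ℝ) ^ (i + 1) := by
    funext i
    ring
  rw [e] at h3
  exact h3

theorem hasProd_c2 : HasProd (fun i : ℕ => 1 - (1 / 2 : ℝ) ^ (2 * i + 1)) Pool.Agent.Y703.CQ.c2 := by
  have h : Multipliable fun i : ℕ => 1 + -((1 / 2 : ℝ) ^ (2 * i + 1)) := by
    apply multipliable_one_add_of_summable
    have h1 : Summable fun i : ℕ => (1 / 4 : ℝ) ^ i * (1 / 2) :=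
      (summable_geometric_of_lt_one (by norm_num) (by norm_num)).mul_right _
    refine h1.congr fun i => ?_
    rw [norm_neg, Real.norm_of_nonneg (by positivity), pow_succ, pow_mul]
    norm_num
  have h3 := h.hasProd
  have e : (fun i : ℕ => 1 + -((1 / 2 : ℝ) ^ (2 * i + 1))) =
      fun i : ℕ => 1 - (1 / 2 : ℝ) ^ (2 * i + 1) := by
    funext i
    ring
  rw [e] at h3
  exact h3

theorem hg_RR {j : Fin 2} {m : ℕ} (hm : 0 < m) (hj : level j ∣ m) {d₀ : ℤ} (h0 : d₀ ≠ 0)
    (hR : rootNumber j d₀ = 1) :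
    Pool.Agent.N919.BS.HG (Cl m d₀) (fun d => RR j d) (kap j) ∧ 0 < kap j := by
  have hb := Pool.Agent.Y948.CQ.t_C2.2.2.2.1
  have hb' := Pool.Agent.N916.GB.eta_bounds.1
  fin_cases j
  · exact ⟨Pool.Agent.N972.TP.hgR15 hm hj h0 ((root0 d₀).1 hR),
      show 0 < Pool.Agent.N916.GB.eta by linarith⟩
  · exact ⟨Pool.Agent.N972.TP.hgR17 hm hj h0 ((root1 d₀).1 hR),
      show 0 < Pool.Agent.Y703.CQ.c2 by linarith⟩

theorem result :
    (∀ (j : Fin 2) (d : ℤ), Squarefree d → Min j d →
      rootNumber j d = 1 ∧ BSDRankZero (A j d) (B j d)) ∧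
    ∃ κ : Fin 2 → ℝ, HasProd (fun i : ℕ => 1 - (1 / 2 : ℝ) ^ (i + 1)) (κ 0) ∧ 0.2887 < κ 0 ∧
      HasProd (fun i : ℕ => 1 - (1 / 2 : ℝ) ^ (2 * i + 1)) (κ 1) ∧ 0.4194 < κ 1 ∧
      ∀ (j : Fin 2) (m : ℕ) (d₀ : ℤ), 0 < m → level j ∣ m → Squarefree d₀ →
        rootNumber j d₀ = 1 →
        Tendsto (fun X : ℕ => (count (fun d => SameClass m d₀ d ∧ Min j d) X : ℝ) /
          (count (SameClass m d₀) X : ℝ)) atTop (nhds (κ j)) ∧
        Tendsto (fun X : ℕ => (countDisc (fun d => SameClass m d₀ d ∧ Min j d) X : ℝ) /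
          (countDisc (SameClass m d₀) X : ℝ)) atTop (nhds (κ j)) ∧
        ∃ c : ℝ, 0 < c ∧
          (∀ᶠ X : ℕ in atTop, c * X ≤ (count (fun d => SameClass m d₀ d ∧ Min j d) X : ℝ)) ∧
          ∀ᶠ X : ℕ in atTop, c * X ≤ (countDisc (fun d => SameClass m d₀ d ∧ Min j d) X : ℝ) := by
  refine ⟨fun j d hs h => ?_, kap, hasProd_eta, Pool.Agent.N916.GB.eta_bounds.1, hasProd_c2,
    Pool.Agent.Y948.CQ.t_C2.2.2.2.1, ?_⟩
  · have h1 := (min_iff j d).1 h
    fin_cases j
    · have h2 : R15 d := h1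
      obtain ⟨c1, c2⟩ := Pool.Agent.N963.JT.bsd15 hs h2
      refine ⟨?_, bsd_of_rank c1 c2⟩
      exact Pool.Agent.N963.JT.w15_of hs h2
    · have h2 : R17 d := h1
      obtain ⟨c3, c4⟩ := Pool.Agent.N963.JT.bsd17 hs h2
      exact ⟨(root1 d).2 ((Pool.Agent.N963.JT.r17_iff hs).1 h2).1, bsd_of_rank c3 c4⟩
  · intro j m d₀ hm hj hs hR
    obtain ⟨h1, h2⟩ := hg_RR hm hj hs.ne_zero hR
    have h3 := Pool.Agent.N972.TP.law_cl hm hs h2 h1
    rw [count_eq (fun d => SameClass m d₀ d ∧ Min j d) (fun d => Cl m d₀ d ∧ RR j d) fun d =>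
        and_congr (cl_iff m d₀ d) (min_iff j d),
      countDisc_eq (fun d => SameClass m d₀ d ∧ Min j d) (fun d => Cl m d₀ d ∧ RR j d) fun d =>
        and_congr (cl_iff m d₀ d) (min_iff j d),
      count_eq (SameClass m d₀) (Cl m d₀) (cl_iff m d₀),
      countDisc_eq (SameClass m d₀) (Cl m d₀) (cl_iff m d₀)]
    exact h3

end Pool.Agent.Results.MP_7c5fb9_nt.Levels15And17
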